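import Pool.Agent.H.MP_1c6531_pr.Final

set_option autoImplicit false

namespace Pool.Agent.Results.MP_1c6531_pr.LowerTail

open MeasureTheory ProbabilityTheory Set

/-- Unordered pairs of distinct points of `Fin n`. -/
abbrev Pair (n : ℕ) : Type := {e : Sym2 (Fin n) // ¬ e.IsDiag}

/-- The unordered pair `{i, j}`. -/
def pair {n : ℕ} (i j : Fin n) (h : i ≠ j) : Pair n := ⟨s(i, j), by simpa using h⟩

/-- The set `M_n` of metrics on `n` points with all distances in `(0, 2]`, as a subset of the space
of real vectors indexed by unordered pairs. -/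
def metricSet (n : ℕ) : Set (Pair n → ℝ) :=
  {d | (∀ e, 0 < d e ∧ d e ≤ 2) ∧
    ∀ (i j k : Fin n) (hij : i ≠ j) (hik : i ≠ k) (hkj : k ≠ j),
      d (pair i j hij) ≤ d (pair i k hik) + d (pair k j hkj)}

/-- The uniform distribution on `M_n`: normalised Lebesgue measure. -/
noncomputable def uniformMetric (n : ℕ) : Measure (Pair n → ℝ) :=
  ProbabilityTheory.cond volume (metricSet n)

/-- There is `c > 0` such that for every `n ≥ 3` and every pair `e` of points, the distance `d_e` in
a uniform random metric space on `n` points with distances at most `2` satisfies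
`P (d_e < 1) ≥ c / √n`.  (The law is indeed a probability measure.) -/
theorem result : ∃ c : ℝ, 0 < c ∧ ∀ n : ℕ, 3 ≤ n →
    IsProbabilityMeasure (uniformMetric n) ∧
    ∀ e : Pair n, c / √n ≤ (uniformMetric n).real {d | d e < 1} := by
  refine ⟨1 / 2880, by norm_num, fun n hn => ?_⟩
  have hM : metricSet n = Pool.Agent.H.MP_1c6531_pr.metricSet n := rfl
  have h0 : volume (metricSet n) ≠ 0 := by
    rw [hM]
    exact (lt_of_lt_of_le one_pos (Pool.Agent.H.MP_1c6531_pr.one_le_volume n)).ne'
  have ht : volume (metricSet n) ≠ ⊤ := by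
    rw [hM]
    exact Pool.Agent.H.MP_1c6531_pr.volume_ne_top n
  refine ⟨cond_isProbabilityMeasure_of_finite h0 ht, fun e => ?_⟩
  refine le_trans (Pool.Agent.H.MP_1c6531_pr.q_lower hn e) (le_of_eq ?_)
  have hms : MeasurableSet {d : Pair n → ℝ | d e < 1} :=
    measurableSet_lt (measurable_pi_apply e) measurable_const
  have hmM : MeasurableSet (metricSet n) := by
    rw [hM]
    exact Pool.Agent.H.MP_1c6531_pr.measurableSet_metricSet n
  unfold uniformMetric
  rw [measureReal_def, cond_apply hmM]
  rw [ENNReal.toReal_mul, ENNReal.toReal_inv]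
  unfold Pool.Agent.H.MP_1c6531_pr.qq Pool.Agent.H.MP_1c6531_pr.av Pool.Agent.H.MP_1c6531_pr.vol
  rw [div_eq_inv_mul, hM]
  congr 1
  have e1 : (fun d : Pair n → ℝ => (Iio (1:ℝ)).indicator (fun _ => (1:ℝ)) (d e)) =
      {d : Pair n → ℝ | d e < 1}.indicator (fun _ => (1:ℝ)) := by
    ext d
    by_cases h : d e < 1
    · rw [indicator_of_mem (show d e ∈ Iio (1:ℝ) from h),
        indicator_of_mem (show d ∈ {d : Pair n → ℝ | d e < 1} from h)]
    · rw [indicator_of_notMem (show d e ∉ Iio (1:ℝ) from h),
        indicator_of_notMem (show d ∉ {d : Pair n → ℝ | d e < 1} from h)]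
  rw [e1, setIntegral_indicator hms, setIntegral_const, measureReal_def, smul_eq_mul, mul_one]

end Pool.Agent.Results.MP_1c6531_pr.LowerTail
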